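import Pool.Agent.Helper533.ConvexObstacle.Plane

/-!
A bounded domain of the plane, with real-analytic boundary, and a perimeter for which the problem
of minimising the first Dirichlet eigenvalue over convex obstacles has minimisers and none of them
touches the boundary.
-/

open MeasureTheory Metric Set Pool.Agent.Helper533.ConvexObstacle
  Pool.Agent.Helper533.ConvexObstacle.PlaneDefs

namespace Pool.Agent.Results.MP_0c2aee_an.InteriorConvexObstacle

theorem E_symm_apply (x : Plane) : E.symm x = (x 0 : ℂ) + (x 1 : ℂ) * Complex.I := by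
  unfold E
  exact Complex.orthonormalBasisOneI_repr_symm_apply x

/-- There are a bounded domain `Ω` of the plane, of the form
`{1/2 < |z^N - 1| < q^N/2}`, and `L` strictly between `0` and the length of the boundary of `Ω`,
such that minimisers exist and every minimiser is contained in the open set `Ω`, so that it does
not meet the boundary. -/
theorem result :
    ∃ (Ω : Set Plane) (L : ℝ),
      IsOpen Ω ∧ IsConnected Ω ∧ Bornology.IsBounded Ω ∧
      (∃ (N : ℕ) (q : ℝ), N ≠ 0 ∧ 1 < q ∧ 6 < q ^ N ∧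
        Ω = {x : Plane | 1 / 2 < ‖((x 0 : ℂ) + (x 1 : ℂ) * Complex.I) ^ N - 1‖ ∧
          ‖((x 0 : ℂ) + (x 1 : ℂ) * Complex.I) ^ N - 1‖ < q ^ N / 2}) ∧
      0 < L ∧ ENNReal.ofReal L < (Measure.hausdorffMeasure 1 : Measure Plane) (frontier Ω) ∧
      (∃ K, IsMinimizer Ω L K) ∧
      ∀ K, IsMinimizer Ω L K → K ⊆ Ω ∧ Disjoint K (frontier Ω) := by
  obtain ⟨N, q, L, h1, h2, h3, h4, h5, h6, h7, h8, h9, h10⟩ := plane_main
  refine ⟨E.symm ⁻¹' (Om N q), L, h4, h5, h6, ⟨N, q, h1, h2, h3, ?_⟩, h7, h8, h9, ?_⟩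
  · ext x
    simp only [mem_preimage, Om, mem_setOf_eq, E_symm_apply]
  · intro K hK
    refine ⟨h10 K hK, ?_⟩
    rw [Set.disjoint_left]
    intro x hx hx2
    have := hx2.2
    rw [h4.interior_eq] at this
    exact this (h10 K hK hx)

end Pool.Agent.Results.MP_0c2aee_an.InteriorConvexObstacle
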